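import Pool.Agent.V11113.MP.Dil2

set_option autoImplicit false

/-!
# Almost all dilates of an arbitrary small set of residues meet record prime gaps

Let `R(p) = log p (log₂ p)² log₄ p / (log₃ p)²`, the order of the largest prime gaps known (starting
library). For every `ε > 0` there is `κ > 0` such that for all large primes `p`, EVERY set `S` of
residues modulo `p` and every interval `(M, M + H]`, `p ^ ε ≤ H ≤ p`: for all but at most
`p ^ (3 + 2 ε) / (|S| H²)` residues `l` there are at least `|S| H / p ^ (1 + ε)` elements `s` of `S`
such that `l s` modulo `p` is represented by an integer in `(M, M + H]` with no prime within distance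
`κ R(p)`.

For `H = p`: all but at most `p ^ (1 + 2 ε) / |S|` dilates `l S` of a set `S` with at least `p ^ (3 ε)`
elements contain a residue in a record gap, for instance the dilates of the set of the numbers
`n! (mod p)`, `n ≤ N`, if it has that many elements, or of any set of `p ^ (3 ε)` powers, squares,
primes. The set may be much smaller than the square root of `p`, and nothing is assumed about it.

Proof. A weighted form of the criterion for families of residues (`Pool.Agent.V11113.MP.manyW`, on the
basis of the covering sieve of the starting library) asks only for a bound on average for the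
exponential sums over the family, weighted by the Fourier coefficients of intervals with phases
`h / q`; for the dilates `l S` its mean square over `l` is estimated by Parseval's identity.
-/

namespace Pool.Agent.Results.MP_3bc45c_nt.AlmostAllDilates

/-- `R(x) = log x (log log x)^2 log log log log x / (log log log x)^2`. -/
noncomputable def R (x : ℝ) : ℝ :=
  Real.log x * (Real.log (Real.log x)) ^ 2 * Real.log (Real.log (Real.log (Real.log x))) /
    (Real.log (Real.log (Real.log x))) ^ 2

open scoped Classical in
theorem result (ε : ℝ) (h0 : 0 < ε) (h1 : ε ≤ 1) : ∃ κ : ℝ, 0 < κ ∧ ∃ P : ℕ,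
    ∀ (p : ℕ) [Fact p.Prime], P ≤ p → ∀ (S : Finset (ZMod p)) (M H : ℕ),
    (p : ℝ) ^ ε ≤ H → H ≤ p →
    ((Finset.univ : Finset (ZMod p)).filter (fun l =>
      ((S.filter (fun s => ∃ n : ℕ, M < n ∧ n ≤ M + H ∧ (n : ZMod p) = l * s ∧
        ∀ q : ℕ, q.Prime → κ * R p < |(q : ℝ) - n|)).card : ℝ) <
      S.card * H * (p : ℝ) ^ (-(1 + ε)))).card * (S.card * (H : ℝ) ^ 2) ≤ (p : ℝ) ^ (3 + 2 * ε) := by
  obtain ⟨κ, hκ, P, h⟩ := Pool.Agent.V11113.MP.dilates ε h0 h1
  exact ⟨κ, hκ, P, fun p hp hP => h p hP hp⟩

end Pool.Agent.Results.MP_3bc45c_nt.AlmostAllDilates
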