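import Pool.Agent.V11113.MP.Prim

set_option autoImplicit false

/-!
# Record prime gaps around primitive roots, and around all elements of given order, modulo a prime

Let `L(p) = log p (log₂ p)² log₄ p / (log₃ p)²`, the order of the largest prime gaps known (starting
library). For every `ε > 0` there is `κ > 0` such that for all large primes `p`, every divisor `t` of
`p - 1` and every interval `(M, M + H]` with `H ≤ p` and `t H ≥ p ^ (3 / 2 + ε)`, the interval contains
at least `t H / p ^ (1 + ε)` integers `n` of multiplicative order exactly `t` modulo `p` which have no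
prime within distance `κ L(p)`.

For `t = p - 1` these are the primitive roots: every interval of length at least `p ^ (1 / 2 + ε)`
contains a primitive root modulo `p` (indeed `p ^ (1 / 2 - ε)` of them) in a prime gap of record order.
For `H = p`: for every `t ≥ p ^ (1 / 2 + ε)` dividing `p - 1` there is such a representative of an
element of order `t`.

Proof. The exponential sums over the elements of order `t` are bounded by `t^{o(1)} √p log p`: the
elements of order `t` of the cyclic group are the powers `g ^ k`, `k < t` coprime to `t`, of one of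
them, and the sums over all the powers of an element are bounded by `√p` by the second moment
(`Pool.Agent.V11113.MP.Pow`, `Pool.Agent.V11113.MP.Prim`). Then the criterion
`Pool.Agent.V11113.MP.many`.
-/

namespace Pool.Agent.Results.MP_3bc45c_nt.ElementsOfGivenOrder

/-- `L(x) = log x (log log x)^2 log log log log x / (log log log x)^2`. -/
noncomputable def L (x : ℝ) : ℝ :=
  Real.log x * (Real.log (Real.log x)) ^ 2 * Real.log (Real.log (Real.log (Real.log x))) /
    (Real.log (Real.log (Real.log x))) ^ 2

open scoped Classical in
theorem result (ε : ℝ) (h0 : 0 < ε) (h1 : ε ≤ 1) : ∃ κ : ℝ, 0 < κ ∧ ∃ P : ℕ, ∀ p : ℕ, P ≤ p →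
    p.Prime → ∀ t : ℕ, t ∣ p - 1 → ∀ M H : ℕ, H ≤ p → (p : ℝ) ^ (3 / 2 + ε) ≤ t * H →
    t * H * (p : ℝ) ^ (-(1 + ε)) ≤ ((Finset.Ioc M (M + H)).filter (fun n : ℕ =>
      orderOf ((n : ℕ) : ZMod p) = t ∧ ∀ q : ℕ, q.Prime → κ * L p < |(q : ℝ) - n|)).card :=
  Pool.Agent.V11113.MP.orders ε h0 h1

end Pool.Agent.Results.MP_3bc45c_nt.ElementsOfGivenOrder
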