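import Pool.Agent.V11113.MP.Curve2

set_option autoImplicit false

/-!
# Record prime gaps around the powers of elements of small order modulo a prime

Let `R(p) = log p (log₂ p)² log₄ p / (log₃ p)²`, the order of the largest prime gaps known (starting
library). For every `ε > 0` there is `κ > 0` such that for all large primes `p`, all nonzero `g`, `a`
modulo `p`, `t` the order of `g`, and all boxes `(L, L + N] × (M, M + H]` with `H ≤ p`,
`t ^ (1 / 3) H ≥ p ^ (9 / 8 + ε)` and `N H ≥ t ^ (2 / 3) p ^ (9 / 8 + ε)`, at least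
`N H / p ^ (1 + ε)` points `(j, n)` of the curve `n ≡ a g ^ j (mod p)` in this box have both coordinates
in record prime gaps.

For `H = p` the conditions are `t ≥ p ^ (3 / 8 + 3 ε)` and `N ≥ t ^ (2 / 3) p ^ (1 / 8 + ε)`: so the
order of `g` may be much smaller than `√p`, and the stretch of powers shorter than the period. In
particular (`N = t`) every coset of every subgroup of order at least `p ^ (3 / 8 + ε)` of the
multiplicative group contains an element with a representative in a record gap.

Proof. The lemma of Heath-Brown and Konyagin (Stepanov's method, `Pool.Agent.H435R3.HBK.hbk` of the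
starting library) bounds the number of representations of `s ≠ 0` as a difference of two elements of
the subgroup by `7 t ^ (2 / 3)`; hence its additive energy is at most `8 t ^ (8 / 3)` and the twisted
exponential sums over it are at most `2 t ^ (2 / 3) p ^ (1 / 8)` (`Pool.Agent.V11113.MP.Small`). Then
completion and the criterion `Pool.Agent.V11113.MP.manyJ` for pairs (an integer, a residue).
-/

namespace Pool.Agent.Results.MP_3bc45c_nt.PowersOfSmallOrder

/-- `R(x) = log x (log log x)^2 log log log log x / (log log log x)^2`. -/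
noncomputable def R (x : ℝ) : ℝ :=
  Real.log x * (Real.log (Real.log x)) ^ 2 * Real.log (Real.log (Real.log (Real.log x))) /
    (Real.log (Real.log (Real.log x))) ^ 2

open scoped Classical in
theorem result (ε : ℝ) (h0 : 0 < ε) (h1 : ε ≤ 1) : ∃ κ : ℝ, 0 < κ ∧ ∃ P : ℕ, ∀ p : ℕ, P ≤ p →
    p.Prime → ∀ g a : ZMod p, g ≠ 0 → a ≠ 0 → ∀ L N M H : ℕ, H ≤ p →
    (orderOf g : ℝ) ^ (2 / 3 : ℝ) * (p : ℝ) ^ (9 / 8 + ε) ≤ N * H →
    (p : ℝ) ^ (9 / 8 + ε) ≤ (orderOf g : ℝ) ^ (1 / 3 : ℝ) * H →
    N * H * (p : ℝ) ^ (-(1 + ε)) ≤ ((Finset.Ioc L (L + N)).filter (fun j : ℕ =>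
      (∀ q : ℕ, q.Prime → κ * R p < |(q : ℝ) - j|) ∧
      ∃ n : ℕ, M < n ∧ n ≤ M + H ∧ (n : ZMod p) = a * g ^ j ∧
      ∀ q : ℕ, q.Prime → κ * R p < |(q : ℝ) - n|)).card :=
  Pool.Agent.V11113.MP.curve_small ε h0 h1

end Pool.Agent.Results.MP_3bc45c_nt.PowersOfSmallOrder
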