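import Pool.Agent.V1179.MH.BG4

set_option autoImplicit false

/-!
# Every residue class modulo a prime `P` is a product of `k` integers below `P ^ (1/4 + ε)`, each in the
middle of a record prime gap

Write `f(Z) = log Z (log₂ Z)² log₄ Z / (log₃ Z)²` (the size of the longest prime gaps below `Z` that are
known, from the starting library).

For every `ε > 0` there is `k₀` such that for all `k ≥ k₀` there are `κ > 0` and `P₀` with the following
property: for every prime `P ≥ P₀` and every integer `a` not divisible by `P` there are integers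
`1 ≤ x₁, …, x_k ≤ P ^ (1/4 + ε)` with `x₁ ⋯ x_k ≡ a (mod P)` such that no prime lies within `κ f(P)` of
any of `x₁, …, x_k`.

Proof: Burgess' bound for character sums over the numbers `n ≤ X`, `n ≡ ρ mod q`, `X ≥ P ^ (1/4 + η)`,
with a power saving uniform in small `q` (from the library's moments and Weil bound,
`Pool.Agent.H471R4.BW`, `Pool.Agent.W27.BG`) shows that the solutions are well distributed in residue
classes to small moduli; then the covering criterion of the library (`Pool.Agent.Y961.JR.critJ`)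
applies.
-/

namespace Pool.Agent.Results.MP_3bc45c_nt.ProductsBelowBurgess

/-- the size of the largest known prime gaps below `Z` -/
noncomputable def f (Z : ℝ) : ℝ :=
  Real.log Z * (Real.log (Real.log Z)) ^ 2 * Real.log (Real.log (Real.log (Real.log Z))) /
    (Real.log (Real.log (Real.log Z))) ^ 2

/-- no prime is at distance at most `d` from `x` -/
def PrimeFreeAround (x d : ℝ) : Prop := ∀ q : ℕ, q.Prime → d < |(q : ℝ) - x|

theorem result (ε : ℝ) (hε : 0 < ε) :
    ∃ k₀ : ℕ, ∀ k : ℕ, k₀ ≤ k → ∃ κ : ℝ, 0 < κ ∧ ∃ P₀ : ℕ, ∀ P : ℕ, P₀ ≤ P → P.Prime →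
    ∀ a : ℤ, ¬ (P : ℤ) ∣ a → ∃ x : Fin k → ℕ, (∀ j, (x j : ℝ) ≤ (P : ℝ) ^ (1 / 4 + ε)) ∧
      (P : ℤ) ∣ ∏ j, (x j : ℤ) - a ∧ ∀ j, PrimeFreeAround (x j) (κ * f P) :=
  Pool.Agent.V1179.MH.products ε hε

end Pool.Agent.Results.MP_3bc45c_nt.ProductsBelowBurgess
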